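import Mathlib

set_option autoImplicit false

namespace Pool.Agent.Results.MP_600649_an.Optimal

open Finset

noncomputable section

/-- zero extension -/
def ext {N : ℕ} (v : Fin N → ℂ) (m : ℕ) : ℂ := if h : m < N then v ⟨m, h⟩ else 0

lemma norm_ext_le {N : ℕ} (v : Fin N → ℂ) (m : ℕ) : ‖ext v m‖ ≤ ‖v‖ := by
  unfold ext; split_ifs
  · exact norm_le_pi_norm v _
  · simp

def sh (N : ℕ) : Module.End ℂ (Fin N → ℂ) where
  toFun v i := ext v (i + 1)
  map_add' v w := by funext i; simp only [ext, Pi.add_apply]; split_ifs <;> simp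
  map_smul' c v := by funext i; simp only [ext, Pi.smul_apply]; split_ifs <;> simp

lemma ext_sh {N : ℕ} (v : Fin N → ℂ) (m : ℕ) : ext (sh N v) m = ext v (m + 1) := by
  by_cases h : m < N
  · simp only [ext, h, dif_pos]; rfl
  · have h' : ¬ (m + 1 < N) := by omega
    simp only [ext, h, h', dif_neg, not_false_eq_true]

lemma ext_pow {N : ℕ} (k : ℕ) : ∀ (v : Fin N → ℂ) (m : ℕ),
    ext ((sh N ^ k) v) m = ext v (m + k) := by
  induction k with
  | zero => intro v m; simp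
  | succ k ih =>
    intro v m
    rw [pow_succ', Module.End.mul_apply, ext_sh, ih]
    congr 1; ring

lemma pow_apply {N : ℕ} (k : ℕ) (v : Fin N → ℂ) (i : Fin N) : (sh N ^ k) v i = ext v (i + k) := by
  rw [← ext_pow]; simp [ext]

lemma sh_nil (N : ℕ) : sh N ^ N = 0 := by
  refine LinearMap.ext fun v => ?_
  funext i
  rw [pow_apply]
  simp [ext]

def R (N : ℕ) (w : ℂ) : Module.End ℂ (Fin N → ℂ) := (1 - w) • ∑ m ∈ range N, (w • sh N) ^ m

lemma R_apply {N : ℕ} (w : ℂ) (v : Fin N → ℂ) (i : Fin N) :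
    R N w v i = (1 - w) * ∑ m ∈ range N, w ^ m * ext v (i + m) := by
  simp only [R, LinearMap.smul_apply, LinearMap.sum_apply, smul_pow, Pi.smul_apply,
    Finset.sum_apply, smul_eq_mul, pow_apply]

lemma R_norm {N : ℕ} {w : ℂ} (hw : ‖w‖ ≤ 1) (v : Fin N → ℂ) : ‖R N w v‖ ≤ 2 * N * ‖v‖ := by
  refine (pi_norm_le_iff_of_nonneg (by positivity)).2 fun i => ?_
  rw [R_apply, norm_mul]
  have h1 : ‖1 - w‖ ≤ 2 := (norm_sub_le _ _).trans (by simp; linarith)
  have h2 : ‖∑ m ∈ range N, w ^ m * ext v (i + m)‖ ≤ N * ‖v‖ := by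
    refine (norm_sum_le _ _).trans ?_
    have : ∀ m ∈ range N, ‖w ^ m * ext v (i + m)‖ ≤ ‖v‖ := by
      intro m _
      rw [norm_mul, norm_pow]
      have := pow_le_one₀ (n := m) (norm_nonneg w) hw
      have := norm_ext_le v (i + m)
      nlinarith [norm_nonneg (ext v (i + m)), pow_nonneg (norm_nonneg w) m]
    simpa using Finset.sum_le_card_nsmul _ _ _ this
  calc _ ≤ 2 * (N * ‖v‖) := mul_le_mul h1 h2 (norm_nonneg _) (by norm_num)
    _ = _ := by ring

abbrev D := {w : ℂ // ‖w‖ ≤ 1}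

def RL (N : ℕ) : List D → (Fin N → ℂ) →ₗ[ℂ] (Fin N → ℂ)
  | [] => LinearMap.id
  | w :: L => RL N L ∘ₗ R N w

lemma RL_norm {N : ℕ} (L : List D) : ∀ v : Fin N → ℂ,
    ‖RL N L v‖ ≤ (2 * N) ^ L.length * ‖v‖ := by
  induction L with
  | nil => intro v; simp [RL]
  | cons w L ih =>
    intro v
    simp only [RL, LinearMap.comp_apply, List.length_cons]
    refine (ih _).trans ?_
    rw [pow_succ, mul_assoc]
    exact mul_le_mul_of_nonneg_left (R_norm w.2 v) (by positivity)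

def wt {N : ℕ} (C : ℝ) (p : List D × Fin N) : ℝ :=
  (if (p.2 : ℕ) = 0 then 1 else (C ^ 2)⁻¹) * (C ^ p.1.length)⁻¹

lemma wt_pos {N : ℕ} {C : ℝ} (hC : 1 ≤ C) (p : List D × Fin N) : 0 < wt C p := by
  unfold wt; split_ifs <;> positivity

lemma wt_le {N : ℕ} {C : ℝ} (hC : 1 ≤ C) (p : List D × Fin N) :
    wt C p ≤ (C ^ p.1.length)⁻¹ := by
  unfold wt; split_ifs
  · simp
  · refine mul_le_of_le_one_left (by positivity) (inv_le_one_of_one_le₀ (one_le_pow₀ hC))

lemma coord_le {N : ℕ} {C : ℝ} (hC : 1 ≤ C) (hN : 2 * (N : ℝ) ≤ C) (v : Fin N → ℂ)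
    (p : List D × Fin N) : ‖(wt C p : ℂ) * RL N p.1 v p.2‖ ≤ ‖v‖ := by
  rw [norm_mul, Complex.norm_real, Real.norm_eq_abs, abs_of_pos (wt_pos hC p)]
  have h1 := (norm_le_pi_norm (RL N p.1 v) p.2).trans (RL_norm p.1 v)
  have h2 : (2 * (N : ℝ)) ^ p.1.length ≤ C ^ p.1.length := pow_le_pow_left₀ (by positivity) hN _
  have h3 : 0 < C ^ p.1.length := by positivity
  calc _ ≤ (C ^ p.1.length)⁻¹ * (C ^ p.1.length * ‖v‖) :=
        mul_le_mul (wt_le hC p) (h1.trans (mul_le_mul_of_nonneg_right h2 (norm_nonneg _)))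
          (norm_nonneg _) (by positivity)
    _ = ‖v‖ := by field_simp

abbrev E (N : ℕ) := lp (fun _ : List D × Fin N => ℂ) ⊤

def Phi {N : ℕ} {C : ℝ} (hC : 1 ≤ C) (hN : 2 * (N : ℝ) ≤ C) : (Fin N → ℂ) →ₗ[ℂ] E N where
  toFun v := ⟨fun p => (wt C p : ℂ) * RL N p.1 v p.2,
    memℓp_infty ⟨‖v‖, by rintro _ ⟨p, rfl⟩; exact coord_le hC hN v p⟩⟩
  map_add' v w := by ext p; simp [mul_add]
  map_smul' c v := by ext p; simp [mul_left_comm]

lemma Phi_apply {N : ℕ} {C : ℝ} (hC : 1 ≤ C) (hN : 2 * (N : ℝ) ≤ C) (v : Fin N → ℂ)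
    (p : List D × Fin N) : Phi hC hN v p = (wt C p : ℂ) * RL N p.1 v p.2 := rfl

lemma Phi_inj {N : ℕ} {C : ℝ} (hC : 1 ≤ C) (hN : 2 * (N : ℝ) ≤ C) :
    Function.Injective (Phi hC hN) := by
  intro v w h
  funext i
  have := congrArg (fun f : E N => f ([], i)) h
  simp only [Phi_apply, RL, LinearMap.id_apply] at this
  exact mul_left_cancel₀ (by exact_mod_cast (wt_pos hC _).ne') this

lemma Phi_R {N : ℕ} {C : ℝ} (hC : 1 ≤ C) (hN : 2 * (N : ℝ) ≤ C) (w : D) (v : Fin N → ℂ) :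
    ‖Phi hC hN (R N w v)‖ ≤ C * ‖Phi hC hN v‖ := by
  refine lp.norm_le_of_forall_le (by positivity) fun p => ?_
  have h := lp.norm_apply_le_norm (by simp) (Phi hC hN v) (w :: p.1, p.2)
  have e : Phi hC hN (R N w v) p = (C : ℂ) * Phi hC hN v (w :: p.1, p.2) := by
    simp only [Phi_apply, RL, LinearMap.comp_apply, wt, List.length_cons, pow_succ]
    have : (C : ℂ) ≠ 0 := by exact_mod_cast (by linarith : C ≠ 0)
    push_cast
    field_simp
  rw [e, norm_mul, Complex.norm_real, Real.norm_eq_abs, abs_of_pos (by linarith)]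
  exact mul_le_mul_of_nonneg_left h (by linarith)

/-- sum of tents -/
def psi (I m : ℕ) : ℂ := ∑ i ∈ range I, ((2 : ℂ) ^ i)⁻¹ *
  ∑ a ∈ range (2 ^ i), ∑ b ∈ range (2 ^ i), if m = 2 ^ I - 2 ^ i + 1 + a + b then 1 else 0

lemma psi_zero (I : ℕ) : psi I 0 = 0 := by
  refine Finset.sum_eq_zero fun i _ => ?_
  rw [Finset.sum_eq_zero, mul_zero]
  intro a _
  refine Finset.sum_eq_zero fun b _ => ?_
  rw [if_neg (by omega)]

lemma psi_peak (I : ℕ) : psi I (2 ^ I) = I := by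
  unfold psi
  rw [Finset.sum_congr rfl (g := fun _ => (1 : ℂ))]
  · simp
  · intro i hi
    have h1 : 2 ^ i ≤ 2 ^ I := Nat.pow_le_pow_right (by norm_num) (mem_range.1 hi).le
    rw [Finset.sum_congr rfl (g := fun _ => (1 : ℂ))]
    · simp
    · intro a ha
      have ha' := mem_range.1 ha
      rw [Finset.sum_eq_single (2 ^ i - 1 - a)]
      · rw [if_pos (by omega)]
      · intro b _ hb; rw [if_neg (by omega)]
      · intro h; exact absurd (mem_range.2 (by omega)) h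

lemma psi_norm (I m : ℕ) : ‖psi I m‖ ≤ 2 ^ I := by
  have h : ∀ i ∈ range I, ‖((2 : ℂ) ^ i)⁻¹ * ∑ a ∈ range (2 ^ i), ∑ b ∈ range (2 ^ i),
      if m = 2 ^ I - 2 ^ i + 1 + a + b then (1 : ℂ) else 0‖ ≤ 2 ^ i := by
    intro i _
    rw [norm_mul, norm_inv, norm_pow, Complex.norm_two]
    have : ‖∑ a ∈ range (2 ^ i), ∑ b ∈ range (2 ^ i),
        if m = 2 ^ I - 2 ^ i + 1 + a + b then (1 : ℂ) else 0‖ ≤ 2 ^ i * 2 ^ i := by
      refine (norm_sum_le _ _).trans ?_
      have : ∀ a ∈ range (2 ^ i), ‖∑ b ∈ range (2 ^ i),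
          if m = 2 ^ I - 2 ^ i + 1 + a + b then (1 : ℂ) else 0‖ ≤ 2 ^ i := by
        intro a _
        refine (norm_sum_le _ _).trans ?_
        have : ∀ b ∈ range (2 ^ i),
            ‖if m = 2 ^ I - 2 ^ i + 1 + a + b then (1 : ℂ) else 0‖ ≤ 1 := by
          intro b _; split_ifs <;> simp
        simpa using Finset.sum_le_card_nsmul _ _ _ this
      simpa using Finset.sum_le_card_nsmul _ _ _ this
    calc _ ≤ ((2 : ℝ) ^ i)⁻¹ * (2 ^ i * 2 ^ i) := mul_le_mul_of_nonneg_left this (by positivity)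
      _ = _ := by field_simp
  refine (norm_sum_le _ _).trans ((Finset.sum_le_sum h).trans ?_)
  clear h
  induction I with
  | zero => simp
  | succ I ih => rw [sum_range_succ, pow_succ]; linarith

lemma psi_gen (I : ℕ) (w : ℂ) : ∑ m ∈ range (2 ^ (I + 1)), w ^ m * psi I m =
    ∑ i ∈ range I, ((2 : ℂ) ^ i)⁻¹ * w ^ (2 ^ I - 2 ^ i + 1) * (∑ a ∈ range (2 ^ i), w ^ a) ^ 2 := by
  unfold psi
  simp only [Finset.mul_sum]
  rw [Finset.sum_comm]
  refine Finset.sum_congr rfl fun i hi => ?_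
  have h1 : 2 ^ i ≤ 2 ^ I := Nat.pow_le_pow_right (by norm_num) (mem_range.1 hi).le
  rw [sq, Finset.sum_mul_sum, Finset.mul_sum, Finset.sum_comm]
  refine Finset.sum_congr rfl fun a ha => ?_
  rw [Finset.mul_sum, Finset.sum_comm]
  refine Finset.sum_congr rfl fun b hb => ?_
  have ha' := mem_range.1 ha
  have hb' := mem_range.1 hb
  rw [Finset.sum_eq_single (2 ^ I - 2 ^ i + 1 + a + b)]
  · rw [if_pos rfl]; ring
  · intro m _ hm; rw [if_neg hm]; ring
  · intro h; exact absurd (mem_range.2 (by rw [pow_succ]; omega)) h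

lemma block_le {w : ℂ} (hw : ‖w‖ ≤ 1) (M k : ℕ) (hM : 0 < M) :
    ‖(1 - w) * (((M : ℂ))⁻¹ * w ^ k * (∑ a ∈ range M, w ^ a) ^ 2)‖ ≤
      24 * (2 * (M * ‖1 - w‖) / (1 + 2 * (M * ‖1 - w‖)) - (M * ‖1 - w‖) / (1 + M * ‖1 - w‖)) := by
  set S := ∑ a ∈ range M, w ^ a with hS
  set d := ‖1 - w‖ with hd
  have hM' : (0 : ℝ) < M := by exact_mod_cast hM
  have h1 : ‖S‖ ≤ M := by
    refine (norm_sum_le _ _).trans ?_
    have : ∀ a ∈ range M, ‖w ^ a‖ ≤ 1 := fun a _ => by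
      rw [norm_pow]; exact pow_le_one₀ (norm_nonneg w) hw
    simpa using Finset.sum_le_card_nsmul _ _ _ this
  have h2 : d * ‖S‖ ≤ 2 := by
    rw [hd, ← norm_mul, hS, mul_neg_geom_sum]
    refine (norm_sub_le _ _).trans ?_
    have := pow_le_one₀ (n := M) (norm_nonneg w) hw
    rw [norm_pow, norm_one]; linarith
  have h3 : ‖w ^ k‖ ≤ 1 := by rw [norm_pow]; exact pow_le_one₀ (norm_nonneg w) hw
  have hd0 : 0 ≤ d := norm_nonneg _
  have hs0 : 0 ≤ ‖S‖ := norm_nonneg _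
  rw [norm_mul, norm_mul, norm_mul, norm_inv, norm_pow S, Complex.norm_natCast, ← hd]
  set x := M * d with hx
  have hx0 : 0 ≤ x := by positivity
  have e : 2 * x / (1 + 2 * x) - x / (1 + x) = x / ((1 + x) * (1 + 2 * x)) := by
    field_simp; ring
  rw [e]
  set t := ‖S‖ / M with ht
  have ht1 : t ≤ 1 := by rw [ht, div_le_one hM']; exact h1
  have ht0 : 0 ≤ t := by positivity
  have hxt : x * t ≤ 2 := by rw [hx, ht]; field_simp; linarith
  have e2 : d * ((M : ℝ)⁻¹ * 1 * ‖S‖ ^ 2) = x * t ^ 2 := by rw [hx, ht]; field_simp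
  calc d * ((M : ℝ)⁻¹ * ‖w ^ k‖ * ‖S‖ ^ 2) ≤ d * ((M : ℝ)⁻¹ * 1 * ‖S‖ ^ 2) := by gcongr
    _ = x * t ^ 2 := e2
    _ ≤ 24 * (x / ((1 + x) * (1 + 2 * x))) := by
      rw [← mul_div_assoc, le_div_iff₀ (by positivity)]
      have h5 : (t + x * t) * (t + 2 * (x * t)) ≤ 3 * 5 :=
        mul_le_mul (by linarith) (by linarith) (by positivity) (by norm_num)
      nlinarith [mul_le_mul_of_nonneg_left h5 hx0]

lemma gen_le (I : ℕ) {w : ℂ} (hw : ‖w‖ ≤ 1) :
    ‖(1 - w) * ∑ m ∈ range (2 ^ (I + 1)), w ^ m * psi I m‖ ≤ 24 := by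
  rw [psi_gen, Finset.mul_sum]
  refine (norm_sum_le _ _).trans ?_
  let f : ℕ → ℝ := fun i => (2 ^ i * ‖1 - w‖) / (1 + 2 ^ i * ‖1 - w‖)
  have h : ∀ i ∈ range I, ‖(1 - w) * (((2 : ℂ) ^ i)⁻¹ * w ^ (2 ^ I - 2 ^ i + 1) *
      (∑ a ∈ range (2 ^ i), w ^ a) ^ 2)‖ ≤ 24 * (f (i + 1) - f i) := by
    intro i _
    have := block_le hw (2 ^ i) (2 ^ I - 2 ^ i + 1) (by positivity)
    push_cast at this
    refine this.trans (le_of_eq ?_)
    simp only [f, pow_succ]
    ring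
  refine (Finset.sum_le_sum h).trans ?_
  rw [← Finset.mul_sum, Finset.sum_range_sub]
  have h1 : f I ≤ 1 := by
    simp only [f]; rw [div_le_one (by positivity)]; linarith
  have h2 : 0 ≤ f 0 := by simp only [f]; positivity
  linarith

lemma test_vec (I : ℕ) {C : ℝ} (hC : 1 ≤ C) (hN : 2 * ((2 ^ (I + 1) : ℕ) : ℝ) ≤ C)
    (hN3 : 4 * ((2 ^ (I + 1) : ℕ) : ℝ) ^ 3 ≤ C) :
    ‖Phi hC hN (fun i : Fin (2 ^ (I + 1)) => psi I i)‖ ≤ 24 / C := by
  set N := 2 ^ (I + 1) with hNdef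
  set v : Fin N → ℂ := fun i => psi I i with hv
  have hC0 : 0 < C := by linarith
  have hN0 : (0 : ℝ) < N := by rw [hNdef]; positivity
  have hvn : ‖v‖ ≤ N := by
    refine (pi_norm_le_iff_of_nonneg hN0.le).2 fun i => (psi_norm I i).trans ?_
    rw [hNdef]; push_cast; rw [pow_succ]; have : (0 : ℝ) < 2 ^ I := by positivity
    linarith
  refine lp.norm_le_of_forall_le (by positivity) fun p => ?_
  obtain ⟨L, i⟩ := p
  rw [Phi_apply, norm_mul, Complex.norm_real, Real.norm_eq_abs, abs_of_pos (wt_pos hC _)]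
  have h1 := (norm_le_pi_norm (RL N L v) i).trans (RL_norm L v)
  have h2 : (2 * (N : ℝ)) ^ L.length ≤ C ^ L.length := pow_le_pow_left₀ (by positivity) hN _
  by_cases hi : (i : ℕ) = 0
  · simp only [wt, hi, if_true, one_mul]
    rcases L with _ | ⟨w, _ | ⟨w', L⟩⟩
    · simp only [RL, LinearMap.id_apply, hv, hi, psi_zero, norm_zero, mul_zero]
      positivity
    · simp only [RL, LinearMap.comp_apply, LinearMap.id_apply, List.length_singleton, pow_one,
        R_apply, hi, zero_add]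
      have : ∑ m ∈ range N, (w : ℂ) ^ m * ext v m = ∑ m ∈ range N, (w : ℂ) ^ m * psi I m := by
        refine Finset.sum_congr rfl fun m hm => ?_
        simp [ext, mem_range.1 hm, hv]
      rw [this, div_eq_inv_mul]
      exact mul_le_mul_of_nonneg_left (gen_le I w.2) (by positivity)
    · simp only [List.length_cons] at h1 ⊢
      have h3 : (2 * (N : ℝ)) ^ L.length ≤ C ^ L.length := pow_le_pow_left₀ (by positivity) hN _
      have h4 : (2 * (N : ℝ)) ^ (L.length + 1 + 1) * ‖v‖ ≤ C ^ L.length * C := by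
        calc _ ≤ (2 * (N : ℝ)) ^ (L.length + 1 + 1) * N := by gcongr
          _ = (2 * (N : ℝ)) ^ L.length * (4 * N ^ 3) := by ring
          _ ≤ _ := by gcongr
      calc _ ≤ (C ^ (L.length + 1 + 1))⁻¹ * (C ^ L.length * C) :=
            mul_le_mul_of_nonneg_left (h1.trans h4) (by positivity)
        _ = 1 / C := by field_simp; ring
        _ ≤ _ := by gcongr; norm_num
  · simp only [wt, hi, if_false]
    calc _ ≤ (C ^ 2)⁻¹ * (C ^ L.length)⁻¹ * (C ^ L.length * C) := by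
          refine mul_le_mul_of_nonneg_left (h1.trans ?_) (by positivity)
          exact mul_le_mul h2 (by linarith) (norm_nonneg _) (by positivity)
      _ = 1 / C := by field_simp
      _ ≤ _ := by gcongr; norm_num

lemma transfer {V F : Type} [AddCommGroup V] [Module ℂ V] [FiniteDimensional ℂ V]
    [NormedAddCommGroup F] [NormedSpace ℂ F] (Φ : V →ₗ[ℂ] F) (hΦ : Function.Injective Φ)
    (T0 : Module.End ℂ V) (C : ℝ) (hC : 0 ≤ C)
    (hR : ∀ z : ℂ, 1 < ‖z‖ → ∃ S : Module.End ℂ V, (∀ v, z • S v - T0 (S v) = v) ∧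
      (∀ v, z • S v - S (T0 v) = v) ∧ ∀ v, ‖Φ ((z - 1) • S v)‖ ≤ C * ‖Φ v‖) :
    ∃ (X : Type) (_ : NormedAddCommGroup X) (_ : NormedSpace ℂ X) (_ : CompleteSpace X)
      (_ : FiniteDimensional ℂ X) (T : X →L[ℂ] X), spectrum ℂ T ⊆ Metric.closedBall 0 1 ∧
      (∀ z : ℂ, 1 < ‖z‖ → ‖(z - 1) • resolvent T z‖ ≤ C) ∧
      ∀ (n : ℕ) (v : V), ‖Φ ((T0 ^ n) v)‖ ≤ ‖T ^ n‖ * ‖Φ v‖ := by
  let X := LinearMap.range Φ
  let e : V ≃ₗ[ℂ] X := LinearEquiv.ofInjective Φ hΦ
  have he : ∀ v, ‖e v‖ = ‖Φ v‖ := fun v => rfl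
  let hat : Module.End ℂ V → (X →L[ℂ] X) := fun A =>
    LinearMap.toContinuousLinearMap (e.toLinearMap ∘ₗ A ∘ₗ e.symm.toLinearMap)
  have hhat : ∀ A v, hat A (e v) = e (A v) := fun A v => by simp [hat]
  have key : ∀ z : ℂ, 1 < ‖z‖ → ∃ u : (X →L[ℂ] X)ˣ, (u : X →L[ℂ] X) = algebraMap ℂ _ z - hat T0 ∧
      ‖(z - 1) • (↑u⁻¹ : X →L[ℂ] X)‖ ≤ C := by
    intro z hz
    obtain ⟨S, h1, h2, h3⟩ := hR z hz
    refine ⟨⟨algebraMap ℂ _ z - hat T0, hat S, ?_, ?_⟩, rfl, ?_⟩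
    · ext1 x
      obtain ⟨v, rfl⟩ := e.surjective x
      simp only [Algebra.algebraMap_eq_smul_one, mul_apply_eq_comp,
        _root_.sub_apply, _root_.smul_apply,
        one_apply_eq_self, hhat]
      rw [← map_smul, ← map_sub, h1]
    · ext1 x
      obtain ⟨v, rfl⟩ := e.surjective x
      simp only [Algebra.algebraMap_eq_smul_one, mul_apply_eq_comp,
        _root_.sub_apply, _root_.smul_apply,
        one_apply_eq_self, hhat, map_sub, map_smul]
      rw [← map_smul, ← map_sub, h2]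
    · refine ContinuousLinearMap.opNorm_le_bound _ hC fun x => ?_
      obtain ⟨v, rfl⟩ := e.surjective x
      show ‖(z - 1) • hat S (e v)‖ ≤ _
      rw [hhat, ← map_smul, he, he]
      exact h3 v
  refine ⟨X, inferInstance, inferInstance, FiniteDimensional.complete ℂ X, inferInstance, hat T0,
    ?_, ?_, ?_⟩
  · intro z hz
    by_contra hc
    obtain ⟨u, hu, _⟩ := key z (by simpa using hc)
    exact hz ⟨u, hu⟩
  · intro z hz
    obtain ⟨u, hu, h⟩ := key z hz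
    rw [resolvent, ← hu, Ring.inverse_unit]
    exact h
  · intro n v
    have : ∀ v, (hat T0 ^ n) (e v) = e ((T0 ^ n) v) := by
      induction n with
      | zero => intro v; simp
      | succ n ih => intro v; rw [pow_succ, pow_succ, mul_apply_eq_comp, hhat, ih]; rfl
    rw [← he, ← he, ← this]
    exact (hat T0 ^ n).le_opNorm _

theorem result : ∃ c : ℝ, 0 < c ∧ ∃ C₀ : ℝ, 1 ≤ C₀ ∧ ∀ C : ℝ, C₀ ≤ C →
    ∃ (X : Type) (_ : NormedAddCommGroup X) (_ : NormedSpace ℂ X) (_ : CompleteSpace X)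
      (_ : FiniteDimensional ℂ X) (T : X →L[ℂ] X), spectrum ℂ T ⊆ Metric.closedBall 0 1 ∧
      (∀ z : ℂ, 1 < ‖z‖ → ‖(z - 1) • resolvent T z‖ ≤ C) ∧
      ∃ n : ℕ, c * C * Real.log (1 + C) ≤ ‖T ^ n‖ := by
  refine ⟨1 / 288, by norm_num, 256, by norm_num, fun C hC => ?_⟩
  have hC1 : 1 ≤ C := by linarith
  obtain ⟨I, hI1, hI2⟩ := exists_nat_pow_near (x := C / 32) (y := 8) (by linarith) (by norm_num)
  have hI : 1 ≤ I := by
    by_contra h
    obtain rfl : I = 0 := by omega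
    norm_num at hI2; linarith
  have e8 : ((2 ^ (I + 1) : ℕ) : ℝ) ^ 3 = 8 * 8 ^ I := by
    push_cast; rw [← pow_mul, mul_comm, pow_mul, pow_succ]; norm_num; ring
  have hN3 : 4 * ((2 ^ (I + 1) : ℕ) : ℝ) ^ 3 ≤ C := by rw [e8]; linarith
  have hN1 : (1 : ℝ) ≤ ((2 ^ (I + 1) : ℕ) : ℝ) := by exact_mod_cast Nat.one_le_two_pow
  have hN : 2 * ((2 ^ (I + 1) : ℕ) : ℝ) ≤ C := by
    have := le_self_pow₀ hN1 (n := 3) (by norm_num)
    linarith
  set N := 2 ^ (I + 1) with hNdef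
  obtain ⟨X, i1, i2, i3, i4, T, h1, h2, h3⟩ := transfer (Phi hC1 hN) (Phi_inj hC1 hN) (sh N) C
    (by linarith) (by
      intro z hz
      have hz0 : z ≠ 0 := by rintro rfl; norm_num at hz
      have hw : ‖z⁻¹‖ ≤ 1 := by rw [norm_inv]; exact inv_le_one_of_one_le₀ hz.le
      have g1 := mul_neg_geom_sum (z⁻¹ • sh N) N
      have g2 := geom_sum_mul_neg (z⁻¹ • sh N) N
      rw [smul_pow, sh_nil, smul_zero, sub_zero] at g1 g2
      refine ⟨z⁻¹ • ∑ m ∈ range N, (z⁻¹ • sh N) ^ m, fun v => ?_, fun v => ?_, fun v => ?_⟩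
      · have := LinearMap.congr_fun g1 v
        simp only [Module.End.mul_apply, LinearMap.sub_apply, Module.End.one_apply,
          LinearMap.smul_apply] at this
        simp only [LinearMap.smul_apply, smul_smul, mul_inv_cancel₀ hz0, one_smul, map_smul]
        exact this
      · have := LinearMap.congr_fun g2 v
        simp only [Module.End.mul_apply, LinearMap.sub_apply, Module.End.one_apply,
          LinearMap.smul_apply, map_sub, map_smul] at this
        simp only [LinearMap.smul_apply, smul_smul, mul_inv_cancel₀ hz0, one_smul]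
        exact this
      · have := Phi_R hC1 hN ⟨z⁻¹, hw⟩ v
        have e : (z - 1) • (z⁻¹ • ∑ m ∈ range N, (z⁻¹ • sh N) ^ m) v = R N z⁻¹ v := by
          simp only [R, LinearMap.smul_apply, smul_smul]
          congr 1
          field_simp
        rw [e]
        exact this)
  refine ⟨X, i1, i2, i3, i4, T, h1, h2, 2 ^ I, ?_⟩
  have h4 := h3 (2 ^ I) (fun i : Fin N => psi I i)
  have h5 := test_vec I hC1 hN hN3
  have hNpos : 0 < N := by positivity
  have h6 := lp.norm_apply_le_norm (by simp) (Phi hC1 hN ((sh N ^ 2 ^ I) fun i : Fin N => psi I i))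
    ([], ⟨0, hNpos⟩)
  have hlt : 2 ^ I < N := by rw [hNdef, pow_succ]; have : 0 < 2 ^ I := by positivity
                             omega
  simp only [Phi_apply, RL, LinearMap.id_apply, pow_apply, wt, ext, zero_add, hlt, dif_pos,
    psi_peak] at h6
  simp only [if_true, List.length_nil, pow_zero, inv_one, mul_one, Complex.ofReal_one, one_mul,
    Complex.norm_natCast] at h6
  have h7 : (I : ℝ) ≤ ‖T ^ 2 ^ I‖ * (24 / C) :=
    h6.trans (h4.trans (mul_le_mul_of_nonneg_left h5 (norm_nonneg _)))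
  have h8 : Real.log (1 + C) ≤ 12 * I := by
    have a1 : 1 + C ≤ 2 ^ (3 * (I + 3)) := by
      rw [pow_mul]; norm_num
      have : (8 : ℝ) ^ (I + 3) = 64 * 8 ^ (I + 1) := by ring
      linarith
    have a2 := Real.log_le_log (by linarith) a1
    rw [Real.log_pow] at a2
    have a3 : Real.log 2 ≤ 1 := by have := Real.log_two_lt_d9; linarith
    have a4 : (1 : ℝ) ≤ I := by exact_mod_cast hI
    push_cast at a2
    nlinarith
  have hC0 : 0 < C := by linarith
  rw [← mul_div_assoc, le_div_iff₀ hC0] at h7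
  nlinarith

end

end Pool.Agent.Results.MP_600649_an.Optimal
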